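import Pool.Agent.H8S4.Round

set_option autoImplicit false

namespace Pool.Agent.Results.MP_3f1f30_gt.IrreducibleSO3

open Pool.Agent.H8S4 Set

/-- Einstein metrics on the 4-sphere invariant under the irreducible action of `SO(3)` are
round: a metric `dt^2 + sum_i (a i)^2 (sigma_i)^2` on `(0,T) x SO(3)` which closes up to such a
metric is Einstein exactly when it is the round metric of some radius `ρ`, described in the same
coordinates; and the round metrics do occur. -/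
theorem result :
    (∀ (a : Fin 3 → ℝ → ℝ) (T L : ℝ), ClosesUp a T →
      (IsEinstein a T L ↔ ∃ ρ : ℝ, 0 < ρ ∧ L = 3 / ρ ^ 2 ∧ T = ρ * Real.pi / 3 ∧
        ∀ t ∈ Icc 0 T, a 0 t = 2 * ρ * Real.sin (t / ρ) ∧
          a 1 t = 2 * ρ * Real.sin (Real.pi / 3 - t / ρ) ∧
          a 2 t = 2 * ρ * Real.sin (Real.pi / 3 + t / ρ))) ∧
    ∀ ρ : ℝ, 0 < ρ → ∃ a : Fin 3 → ℝ → ℝ, ClosesUp a (ρ * Real.pi / 3) ∧
      IsEinstein a (ρ * Real.pi / 3) (3 / ρ ^ 2) := by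
  refine ⟨fun a T L hc => ⟨main a T L hc, ?_⟩, fun ρ hρ => ⟨roundA ρ, closesUp_roundA ρ hρ, ?_⟩⟩
  · rintro ⟨ρ, hρ, rfl, hT, h⟩
    exact conv a T ρ hρ hT h
  · exact conv _ _ ρ hρ rfl (fun t _ => ⟨rfl, rfl, rfl⟩)

end Pool.Agent.Results.MP_3f1f30_gt.IrreducibleSO3
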