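import Pool.Agent.S4Gen.Conv

set_option autoImplicit false

namespace Pool.Agent.Results.MP_3f1f30_gt.SU2Symmetry

open Pool.Agent.S4Gen Set Matrix

/-- Einstein metrics on the 4-sphere invariant under the action of `SU(2)` on
`S⁴ ⊂ ℂ² ⊕ ℝ` (two fixed points) are round: a metric `dt^2 + sum_i (sum_j B i j sigma_j)^2` on
`(0,T) x SU(2)` which closes up at both ends by a fixed point is Einstein exactly when it is the
round metric of some radius `ρ`, i.e. `B = (ρ / 2) sin (t / ρ) I`; and the round metrics do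
occur. -/
theorem result :
    (∀ (B : ℝ → Matrix (Fin 3) (Fin 3) ℝ) (T L : ℝ), ClosesUp B T →
      (IsEinstein B T L ↔ ∃ ρ : ℝ, 0 < ρ ∧ L = 3 / ρ ^ 2 ∧ T = ρ * Real.pi ∧
        ∀ t ∈ Icc 0 T, B t = (ρ / 2 * Real.sin (t / ρ)) • (1 : Matrix (Fin 3) (Fin 3) ℝ))) ∧
    ∀ ρ : ℝ, 0 < ρ → ∃ B : ℝ → Matrix (Fin 3) (Fin 3) ℝ, ClosesUp B (ρ * Real.pi) ∧
      IsEinstein B (ρ * Real.pi) (3 / ρ ^ 2) := by
  refine ⟨fun B T L hc => ⟨main B T L hc, ?_⟩, fun ρ hρ =>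
    ⟨fun t => (ρ / 2 * Real.sin (t / ρ)) • (1 : Matrix (Fin 3) (Fin 3) ℝ),
      closesUp_round ρ hρ, ?_⟩⟩
  · rintro ⟨ρ, hρ, rfl, hT, h⟩
    exact conv B T ρ hρ hT h
  · exact conv _ _ ρ hρ rfl (fun t _ => rfl)

end Pool.Agent.Results.MP_3f1f30_gt.SU2Symmetry
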