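import Pool.Agent.T2S4.Main
import Pool.Agent.T2S4.Round

/-!
# Einstein metrics on the 4-sphere with torus symmetry are round

The 4-sphere is the union of two charts `ℝ⁴` glued by the inversion `x ↦ x / |x|²`; a metric is a
pair `g, g'` of matrix valued functions on the two charts. `TorusInvariant g`: the rotations of the
two planes of `ℝ⁴ = ℝ² × ℝ²` are isometries. (`Pool/Agent/T2S4/Round.lean`: the round metric
satisfies all hypotheses.)
-/

set_option autoImplicit false

namespace Pool.Agent.Results.MP_3f1f30_gt.TorusSymmetry

open Pool.Agent.T2S4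

/-- A smooth Riemannian metric on the 4-sphere which is invariant under the torus `T²` satisfies
the Einstein equation `Ric = Λ g` (with some real number `Λ`) if and only if `Λ` is positive and the
metric has constant sectional curvature `Λ / 3`. -/
theorem result {g g' : P4 → M4} (h : SphereMetric g g') (hT : TorusInvariant g) (Λ : ℝ) :
    IsEinstein Λ g ↔ 0 < Λ ∧ HasConstCurv (Λ / 3) g ∧ HasConstCurv (Λ / 3) g' := by
  refine ⟨fun hE => main_torus h hT hE, fun ⟨_, h1, _⟩ => ?_⟩
  have h2 := HasConstCurv.einstein h.left h1
  have h3 : 3 * (Λ / 3) = Λ := by ring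
  rwa [h3] at h2

end Pool.Agent.Results.MP_3f1f30_gt.TorusSymmetry
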